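import Pool.Agent.R961.Tri

/-!
# MP_df2971_lc: the stability/definability trichotomy fails for every base `k ≥ 2`

For every `k ≥ 2` the set `X` of integers whose `k`-adic valuation is finite and even is
recognized by a finite automaton (sign and base-`k` digits, most significant digit first), and
none of the three alternatives holds for `(ℤ,+,X)`:

* `(ℤ,+,X)` is not stable (the formula `X(y - x)` has the order property);
* `(ℤ,+,X)` and `(ℤ,<,+,k^ℕ)` do not define the same sets;
* `(ℤ,+,X)` does not define `V_k`.

In fact `(ℤ,+,X)` defines (with parameters) neither the set of nonnegative integers nor `k^ℕ`, so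
that the usual variants of the trichotomy (e.g. with the extra alternative `(ℤ,+,<)`) fail too.
-/

namespace Pool.Agent.Results.MP_df2971_lc.TrichotomyFails

open Pool.Agent.R961.Tri

theorem result (k : ℕ) (hk : 2 ≤ k) :
    ∃ X : Set ℤ, Recognized k X ∧
      ¬ IsStable (strX X) ∧
      ¬ SameDefinableSets (strX X) (strP k) ∧
      ¬ Defines (strX X) (graphV k) ∧
      ¬ Defines (strX X) nonnegSet ∧
      ¬ Defines (strX X) (powSet k) :=
  ⟨evenVal k, recognized hk, not_stable hk, not_same hk, not_defines_V hk,
    not_defines_nonneg hk, not_defines_pow hk⟩

end Pool.Agent.Results.MP_df2971_lc.TrichotomyFails
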